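import Pool.Agent.V11112.SG4

open Filter Topology

namespace Pool.Agent.Results.MP_b48a23_an.SignSumsPlane

/- `ℕ → Bool` carries the metric `dist ε δ = (1/2) ^ (first index where they differ)`. -/
attribute [local instance] PiNat.metricSpace

/-- the sign attached to a Boolean: `true` is `1` and `false` is `-1` -/
def sgn (b : Bool) : ℝ := if b then 1 else -1

/-- the set `E_L` of sign choices whose signed series converges to `L` -/
def signSet {d : ℕ} (a : ℕ → (Fin d → ℝ)) (L : Fin d → ℝ) : Set (ℕ → Bool) :=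
  {ε | Tendsto (fun N => ∑ n ∈ Finset.range N, sgn (ε n) • a n) atTop (𝓝 L)}

open Pool.Agent.V11112.SG

/-- the sequence of vectors -/
noncomputable def vec (n : ℕ) : Fin 2 → ℝ := ![cat xt n, cat yt n]

lemma coord0 (ε : ℕ → Bool) (N : ℕ) :
    (∑ n ∈ Finset.range N, sgn (ε n) • vec n) 0 = PS (cat xt) ε N := by
  rw [Finset.sum_apply]
  unfold PS
  apply Finset.sum_congr rfl
  intro n _
  cases h : ε n <;> simp [sgn, sg, vec]

lemma coord1 (ε : ℕ → Bool) (N : ℕ) :
    (∑ n ∈ Finset.range N, sgn (ε n) • vec n) 1 = PS (cat yt) ε N := by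
  rw [Finset.sum_apply]
  unfold PS
  apply Finset.sum_congr rfl
  intro n _
  cases h : ε n <;> simp [sgn, sg, vec]

lemma mem_iff (ε : ℕ → Bool) (L : Fin 2 → ℝ) : ε ∈ signSet vec L ↔
    Tendsto (PS (cat xt) ε) atTop (𝓝 (L 0)) ∧ Tendsto (PS (cat yt) ε) atTop (𝓝 (L 1)) := by
  unfold signSet
  rw [Set.mem_ofPred_eq, tendsto_pi_nhds, Fin.forall_fin_two]
  simp only [coord0, coord1]

lemma xt_abs (j k : ℕ) : |xt j k| ≤ aa j := by
  unfold xt
  have := aa_pos j
  split_ifs
  · simpa using this.le
  · rw [abs_of_pos this]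

lemma yt_abs (j k : ℕ) : |yt j k| ≤ ga j := by
  unfold yt
  have := ga_pos j
  split_ifs
  · rw [abs_of_pos this]
  · rw [abs_neg, abs_of_pos this]

lemma vec_null : Tendsto vec atTop (𝓝 0) := by
  rw [tendsto_pi_nhds, Fin.forall_fin_two]
  constructor
  · apply squeeze_zero_norm (a := fun n => aa (blk n))
    · intro n
      exact xt_abs _ _
    · exact aa_tendsto.comp blk_tendsto
  · apply squeeze_zero_norm (a := fun n => ga (blk n))
    · intro n
      exact yt_abs _ _
    · exact ga_tendsto.comp blk_tendsto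

/-- There is a null sequence of vectors in the plane such that every target is attained by some
choice of signs, although for one target the set of sign choices has Hausdorff dimension zero. -/
theorem result : ∃ a : ℕ → (Fin 2 → ℝ), Tendsto a atTop (𝓝 0) ∧
    (∀ L, (signSet a L).Nonempty) ∧ ∃ L, dimH (signSet a L) = 0 := by
  refine ⟨vec, vec_null, fun L => ?_, ![0, y0], ?_⟩
  · obtain ⟨ε, h1, h2⟩ := exists_signs (L 0, L 1)
    exact ⟨ε, (mem_iff ε L).2 ⟨h1, h2⟩⟩
  · apply dimH_special
    intro ε hε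
    have := (mem_iff ε _).1 hε
    simpa using this

end Pool.Agent.Results.MP_b48a23_an.SignSumsPlane
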